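import Pool.Agent.helper8.GD.Spec
import Pool.Agent.helper85.MT.MLS
import Pool.Agent.helper85.BVP.HArith

/-!
# Project GD, module BV1: bilinear forms over the characters of conductor in `(R, 2R]`
-/

set_option autoImplicit false

namespace GD

open Finset ArithmeticFunction

theorem BV1_h_eq {n : ℕ} (hn : n ≠ 0) : Pool.Agent.helper85.BVP.h n = n / (Nat.totient n : ℝ) := by
  have h1 := Nat.totient_eq_mul_prod_factors n
  have h2 : ((Nat.totient n : ℕ) : ℝ) = n * ∏ p ∈ n.primeFactors, (1 - (p : ℝ)⁻¹) := by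
    have := congrArg (fun x : ℚ => (x : ℝ)) h1
    push_cast at this
    exact this
  have h3 : (n : ℝ) ≠ 0 := by exact_mod_cast hn
  rw [h2, Pool.Agent.helper85.BVP.h, prod_inv_distrib, ← div_div, div_self h3, one_div]
  simp only [one_div]

theorem BV1_sum_h (n : ℕ) : ∑ b ∈ Icc 1 n, Pool.Agent.helper85.BVP.h b ≤ Real.exp 30 * n := by
  refine le_trans ?_ (Pool.Agent.helper85.BVP.sum_h4 n)
  have : Icc 1 n = Ioc 0 n := by ext x; simp only [mem_Icc, mem_Ioc]; omega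
  rw [this]
  refine sum_le_sum fun b _ => ?_
  have h1 := Pool.Agent.helper85.BVP.one_le_h b
  calc Pool.Agent.helper85.BVP.h b = Pool.Agent.helper85.BVP.h b ^ 1 := (pow_one _).symm
    _ ≤ Pool.Agent.helper85.BVP.h b ^ 4 := pow_le_pow_right₀ h1 (by norm_num)

/-- partial summation -/
theorem BV1_abel (f : ℕ → ℝ) (n : ℕ) :
    ∑ b ∈ Icc 1 n, f b / b = (∑ b ∈ Icc 1 n, f b) / n +
      ∑ k ∈ Ico 1 n, (∑ b ∈ Icc 1 k, f b) * (1 / (k * (k + 1) : ℝ)) := by
  induction n with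
  | zero => simp
  | succ n ih =>
    rcases Nat.eq_zero_or_pos n with h0 | h0
    · subst h0
      simp
    · rw [sum_Icc_succ_top (by omega), ih, sum_Icc_succ_top (by omega), sum_Ico_succ_top h0]
      have h1 : (n : ℝ) ≠ 0 := by exact_mod_cast h0.ne'
      have h2 : (n : ℝ) + 1 ≠ 0 := by positivity
      push_cast
      field_simp
      ring

theorem BV1_sum_inv (Q : ℕ) (hQ : 1 ≤ Q) :
    ∑ s ∈ Icc 1 Q, 1 / (Nat.totient s : ℝ) ≤ Real.exp 30 * (1 + Real.log Q) := by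
  have h1 : ∑ s ∈ Icc 1 Q, 1 / (Nat.totient s : ℝ) =
      ∑ s ∈ Icc 1 Q, Pool.Agent.helper85.BVP.h s / s := by
    refine sum_congr rfl fun s hs => ?_
    rw [mem_Icc] at hs
    have h2 : (s : ℝ) ≠ 0 := by exact_mod_cast (by omega : s ≠ 0)
    rw [BV1_h_eq (by omega), div_div, mul_comm, ← div_div, div_self h2]
  rw [h1, BV1_abel]
  have hQ0 : (0 : ℝ) < Q := by exact_mod_cast hQ
  have h2 : (∑ b ∈ Icc 1 Q, Pool.Agent.helper85.BVP.h b) / Q ≤ Real.exp 30 := by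
    rw [div_le_iff₀ hQ0]
    exact BV1_sum_h Q
  have h3 : ∑ k ∈ Ico 1 Q, (∑ b ∈ Icc 1 k, Pool.Agent.helper85.BVP.h b) *
      (1 / (k * (k + 1) : ℝ)) ≤ Real.exp 30 * Real.log Q := by
    have h4 : ∀ k ∈ Ico 1 Q, (∑ b ∈ Icc 1 k, Pool.Agent.helper85.BVP.h b) *
        (1 / (k * (k + 1) : ℝ)) ≤ Real.exp 30 * (Real.log (k + 1 : ℕ) - Real.log k) := by
      intro k hk
      rw [mem_Ico] at hk
      have hk0 : (0 : ℝ) < k := by exact_mod_cast hk.1
      have h5 := BV1_sum_h k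
      calc _ ≤ (Real.exp 30 * k) * (1 / (k * (k + 1) : ℝ)) :=
            mul_le_mul_of_nonneg_right h5 (by positivity)
        _ = Real.exp 30 * (1 / (k + 1)) := by field_simp
        _ ≤ _ := by
            refine mul_le_mul_of_nonneg_left ?_ (Real.exp_pos _).le
            rw [← Real.log_div (by positivity) hk0.ne']
            have h6 := Real.one_sub_inv_le_log_of_pos
              (show (0 : ℝ) < ((k + 1 : ℕ) : ℝ) / k by positivity)
            refine le_trans (le_of_eq ?_) h6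
            push_cast
            field_simp
            ring
    refine (sum_le_sum h4).trans (le_of_eq ?_)
    rw [← mul_sum, sum_Ico_eq_sub _ hQ]
    congr 1
    rw [← sum_Ico_eq_sub _ hQ, sum_Ico_eq_sum_range]
    have h7 : ∀ n : ℕ, ∑ k ∈ range n, (Real.log ((1 + k + 1 : ℕ) : ℝ) - Real.log ((1 + k : ℕ) : ℝ))
        = Real.log ((1 + n : ℕ) : ℝ) := by
      intro n
      induction n with
      | zero => simp
      | succ n ih =>
        rw [sum_range_succ, ih]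
        ring_nf
    rw [h7]
    congr 2
    omega
  linarith

/-- the twisted sum over a character modulo `r` -/
noncomputable def BV1_A (α : ℕ → ℝ) (M₁ M₂ s r : ℕ) (χ : DirichletCharacter ℂ r) : ℂ :=
  ∑ n ∈ Ioc M₁ M₂, (if Nat.Coprime n s then (α n : ℂ) else 0) * χ n

theorem BV1_prim (α : ℕ → ℝ) (M₁ M₂ m : ℕ) (hm : 0 < m) (χ : DirichletCharacter ℂ m) :
    ∑ n ∈ Ioc M₁ M₂, (α n : ℂ) * χ n =
      BV1_A α M₁ M₂ (m / χ.conductor) χ.conductor χ.primitiveCharacter := by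
  rw [BV1_A]
  refine sum_congr rfl fun n _ => ?_
  have hd := χ.conductor_dvd_level
  have hms : m = χ.conductor * (m / χ.conductor) := (Nat.mul_div_cancel' hd).symm
  by_cases h : Nat.Coprime n m
  · have h2 := χ.primitiveCharacter_apply_of_isCoprime (a := (n : ℤ))
      (Nat.isCoprime_iff_coprime.mpr h)
    push_cast at h2
    have h3 : Nat.Coprime n (m / χ.conductor) := Nat.Coprime.coprime_dvd_right
      (Nat.div_dvd_of_dvd hd) h
    rw [if_pos h3, h2]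
  · have hu : ¬ IsUnit (n : ZMod m) := fun hu => h ((ZMod.isUnit_iff_coprime n m).mp hu)
    rw [MulChar.map_nonunit _ hu, mul_zero]
    by_cases h3 : Nat.Coprime n (m / χ.conductor)
    · have h4 : ¬ Nat.Coprime n χ.conductor := by
        intro h4
        exact h (by rw [hms]; exact Nat.Coprime.mul_right h4 h3)
      have hu' : ¬ IsUnit (n : ZMod χ.conductor) := fun hu =>
        h4 ((ZMod.isUnit_iff_coprime n χ.conductor).mp hu)
      rw [MulChar.map_nonunit _ hu', mul_zero]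
    · rw [if_neg h3, zero_mul]

open Classical in
theorem BV1_chars (m R : ℕ) (hm : 0 < m) (F : ∀ s r : ℕ, DirichletCharacter ℂ r → ℝ)
    (hF : ∀ (s r : ℕ) (χ : DirichletCharacter ℂ r), 0 ≤ F s r χ) :
    ∑ χ : DirichletCharacter ℂ m with R < χ.conductor ∧ χ.conductor ≤ 2 * R,
        F (m / χ.conductor) χ.conductor χ.primitiveCharacter ≤
      ∑ r ∈ Ioc R (2 * R) with r ∣ m, ∑ χ : DirichletCharacter ℂ r with χ.IsPrimitive,
        F (m / r) r χ := by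
  set T : Finset (Σ r : ℕ, DirichletCharacter ℂ r) :=
    ((Ioc R (2 * R)).filter (fun r => r ∣ m)).sigma
      (fun r => (univ : Finset (DirichletCharacter ℂ r)).filter (fun χ => χ.IsPrimitive)) with hT
  set g : DirichletCharacter ℂ m → (Σ r : ℕ, DirichletCharacter ℂ r) :=
    fun χ => ⟨χ.conductor, χ.primitiveCharacter⟩ with hg
  have : NeZero m := ⟨hm.ne'⟩
  have hinj : Function.Injective g := by
    have hleft : ∀ χ : DirichletCharacter ℂ m,
        (fun i : (Σ r : ℕ, DirichletCharacter ℂ r) =>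
          if h : i.1 ∣ m then DirichletCharacter.changeLevel h i.2 else 1) (g χ) = χ := by
      intro χ
      simp only [hg]
      rw [dif_pos χ.conductor_dvd_level]
      exact χ.changeLevel_primitiveCharacter
    intro χ χ' h
    rw [← hleft χ, ← hleft χ', h]
  set S := (univ : Finset (DirichletCharacter ℂ m)).filter
    (fun χ => R < χ.conductor ∧ χ.conductor ≤ 2 * R) with hS
  have e1 : ∑ χ ∈ S, F (m / χ.conductor) χ.conductor χ.primitiveCharacter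
      = ∑ i ∈ S.image g, F (m / i.1) i.1 i.2 := by
    rw [sum_image (fun x _ y _ h => hinj h)]
  have e2 : ∑ r ∈ Ioc R (2 * R) with r ∣ m, ∑ χ : DirichletCharacter ℂ r with χ.IsPrimitive,
      F (m / r) r χ = ∑ i ∈ T, F (m / i.1) i.1 i.2 := by
    rw [hT, sum_sigma]
  rw [e1, e2]
  refine sum_le_sum_of_subset_of_nonneg ?_ (fun _ _ _ => hF _ _ _)
  intro i hi
  rw [mem_image] at hi
  obtain ⟨χ, hχ, rfl⟩ := hi
  rw [hS, mem_filter] at hχ
  rw [hT, mem_sigma, mem_filter, mem_filter, mem_Ioc]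
  exact ⟨⟨hχ.2, χ.conductor_dvd_level⟩, mem_univ _, χ.primitiveCharacter_isPrimitive⟩

/-- summation over the moduli -/
theorem BV1_swap (Q R : ℕ) (hR : 1 ≤ R) (X : ℕ → ℕ → ℝ) (hX : ∀ s r, 0 ≤ X s r) :
    ∑ m ∈ Icc 1 Q, 1 / (Nat.totient m : ℝ) * ∑ r ∈ Ioc R (2 * R) with r ∣ m, X (m / r) r ≤
      ∑ s ∈ Icc 1 Q, 1 / (Nat.totient s : ℝ) *
        (1 / (R : ℝ) * ∑ r ∈ Ioc R (2 * R), (r : ℝ) / Nat.totient r * X s r) := by
  have e1 : ∑ m ∈ Icc 1 Q, 1 / (Nat.totient m : ℝ) * ∑ r ∈ Ioc R (2 * R) with r ∣ m, X (m / r) r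
      = ∑ r ∈ Ioc R (2 * R), ∑ m ∈ Icc 1 Q with r ∣ m, 1 / (Nat.totient m : ℝ) * X (m / r) r := by
    simp_rw [sum_filter, mul_sum]
    rw [sum_comm]
    refine sum_congr rfl fun r _ => sum_congr rfl fun m _ => ?_
    split_ifs <;> simp
  have e2 : ∑ s ∈ Icc 1 Q, 1 / (Nat.totient s : ℝ) *
        (1 / (R : ℝ) * ∑ r ∈ Ioc R (2 * R), (r : ℝ) / Nat.totient r * X s r) =
      ∑ r ∈ Ioc R (2 * R), ∑ s ∈ Icc 1 Q, 1 / (Nat.totient s : ℝ) *
        (1 / (R : ℝ) * ((r : ℝ) / Nat.totient r * X s r)) := by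
    simp_rw [mul_sum]
    rw [sum_comm]
  rw [e1, e2]
  refine sum_le_sum fun r hr => ?_
  rw [mem_Ioc] at hr
  have hr0 : 0 < r := by omega
  have hR0 : (0 : ℝ) < R := by exact_mod_cast hR
  have hrR : (R : ℝ) ≤ r := by exact_mod_cast hr.1.le
  have hφr : (0 : ℝ) < Nat.totient r := by exact_mod_cast Nat.totient_pos.mpr hr0
  set G : ℕ → ℝ := fun s => 1 / (Nat.totient s : ℝ) *
        (1 / (R : ℝ) * ((r : ℝ) / Nat.totient r * X s r)) with hG
  have hG0 : ∀ s, 0 ≤ G s := fun s => by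
    have := hX s r
    simp only [hG]
    positivity
  have h1 : ∀ m ∈ (Icc 1 Q).filter (fun m => r ∣ m), 1 / (Nat.totient m : ℝ) * X (m / r) r ≤
      G (m / r) := by
    intro m hm
    rw [mem_filter, mem_Icc] at hm
    obtain ⟨k, rfl⟩ := hm.2
    have hk : 0 < k := Nat.pos_of_ne_zero (by rintro rfl; simp at hm)
    have hφk : (0 : ℝ) < Nat.totient k := by exact_mod_cast Nat.totient_pos.mpr hk
    simp only [hG]
    rw [Nat.mul_div_cancel_left k hr0]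
    have h3 : (0 : ℝ) < Nat.totient (r * k) := by
      exact_mod_cast Nat.totient_pos.mpr (Nat.mul_pos hr0 hk)
    have h4 : (Nat.totient r : ℝ) * Nat.totient k ≤ Nat.totient (r * k) := by
      exact_mod_cast Nat.totient_super_multiplicative r k
    have h5 : 1 / (Nat.totient (r * k) : ℝ) ≤
        1 / (Nat.totient k : ℝ) * (1 / (R : ℝ) * ((r : ℝ) / Nat.totient r)) := by
      calc 1 / (Nat.totient (r * k) : ℝ) ≤ 1 / ((Nat.totient r : ℝ) * Nat.totient k) :=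
            one_div_le_one_div_of_le (by positivity) h4
        _ = 1 / (Nat.totient k : ℝ) * (1 * (1 / Nat.totient r)) := by field_simp
        _ ≤ 1 / (Nat.totient k : ℝ) * ((r / (R : ℝ)) * (1 / Nat.totient r)) := by
            gcongr
            rw [le_div_iff₀ hR0, one_mul]
            exact hrR
        _ = _ := by field_simp
    calc _ ≤ (1 / (Nat.totient k : ℝ) * (1 / (R : ℝ) * ((r : ℝ) / Nat.totient r))) * X k r :=
          mul_le_mul_of_nonneg_right h5 (hX k r)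
      _ = _ := by ring
  refine (sum_le_sum h1).trans ?_
  calc ∑ m ∈ (Icc 1 Q).filter (fun m => r ∣ m), G (m / r)
      = ∑ k ∈ ((Icc 1 Q).filter (fun m => r ∣ m)).image (fun m => m / r), G k := by
        rw [sum_image]
        intro x hx y hy hxy
        rw [mem_coe, mem_filter] at hx hy
        simp only at hxy
        rw [← Nat.mul_div_cancel' hx.2, ← Nat.mul_div_cancel' hy.2, hxy]
    _ ≤ ∑ k ∈ Icc 1 Q, G k := by
        refine sum_le_sum_of_subset_of_nonneg ?_ (fun _ _ _ => hG0 _)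
        intro k hk
        rw [mem_image] at hk
        obtain ⟨m, hm, rfl⟩ := hk
        rw [mem_filter, mem_Icc] at hm
        rw [mem_Icc]
        refine ⟨Nat.div_pos (Nat.le_of_dvd (by omega) hm.2) hr0, (Nat.div_le_self _ _).trans hm.1.2⟩

open Classical in
theorem BV1_ls (α : ℕ → ℝ) (M₁ M₂ s R : ℕ) (hM : M₁ ≤ M₂) :
    ∑ r ∈ Ioc R (2 * R), (r : ℝ) / Nat.totient r *
      ∑ χ : DirichletCharacter ℂ r with χ.IsPrimitive, ‖BV1_A α M₁ M₂ s r χ‖ ^ 2 ≤
    5 * ((((M₂ - M₁ : ℕ) : ℝ) + 4 * R ^ 2) * ∑ a ∈ Ioc M₁ M₂, α a ^ 2) := by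
  have h1 := Pool.Agent.helper85.MT.mult_large_sieve (2 * R) M₁ (M₂ - M₁)
    (fun n => if Nat.Coprime n s then (α n : ℂ) else 0)
  have h2 : M₁ + (M₂ - M₁) = M₂ := by omega
  rw [h2] at h1
  have h3 : ∑ n ∈ Ioc M₁ M₂, ‖(if Nat.Coprime n s then (α n : ℂ) else 0)‖ ^ 2 ≤
      ∑ a ∈ Ioc M₁ M₂, α a ^ 2 := by
    refine sum_le_sum fun n _ => ?_
    split_ifs
    · rw [Complex.norm_real, Real.norm_eq_abs, sq_abs]
    · rw [norm_zero, zero_pow (by norm_num)]; exact sq_nonneg _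
  have h4 : ∑ r ∈ Ioc R (2 * R), (r : ℝ) / Nat.totient r *
      ∑ χ : DirichletCharacter ℂ r with χ.IsPrimitive, ‖BV1_A α M₁ M₂ s r χ‖ ^ 2 ≤
      ∑ r ∈ Icc 1 (2 * R), (r : ℝ) / Nat.totient r *
      ∑ χ : DirichletCharacter ℂ r with χ.IsPrimitive, ‖BV1_A α M₁ M₂ s r χ‖ ^ 2 := by
    refine sum_le_sum_of_subset_of_nonneg ?_ (fun r _ _ => by positivity)
    intro r hr
    rw [mem_Ioc] at hr
    rw [mem_Icc]
    omega
  refine h4.trans (le_trans h1 ?_)
  calc _ ≤ 5 * (((M₂ - M₁ : ℕ) : ℝ) + ((2 * R : ℕ) : ℝ) ^ 2) * ∑ a ∈ Ioc M₁ M₂, α a ^ 2 :=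
        mul_le_mul_of_nonneg_left h3 (by positivity)
    _ = _ := by push_cast; ring

/-- weighted Cauchy-Schwarz for double sums -/
theorem BV1_cs {ι : Type*} (T : Finset ι) (w x y : ι → ℝ) (hw : ∀ i ∈ T, 0 ≤ w i) (X Y : ℝ)
    (hX : ∑ i ∈ T, w i * x i ^ 2 ≤ X) (hY : ∑ i ∈ T, w i * y i ^ 2 ≤ Y) :
    ∑ i ∈ T, w i * (x i * y i) ≤ √(X * Y) := by
  have h1 : ∑ i ∈ T, w i * (x i * y i) = ∑ i ∈ T, (√(w i) * x i) * (√(w i) * y i) := by
    refine sum_congr rfl fun i hi => ?_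
    have := Real.mul_self_sqrt (hw i hi)
    calc w i * (x i * y i) = (√(w i) * √(w i)) * (x i * y i) := by rw [this]
      _ = _ := by ring
  rw [h1]
  refine Real.le_sqrt_of_sq_le ?_
  refine (sum_mul_sq_le_sq_mul_sq T _ _).trans ?_
  have h2 : ∀ z : ι → ℝ, ∑ i ∈ T, (√(w i) * z i) ^ 2 = ∑ i ∈ T, w i * z i ^ 2 := by
    intro z
    refine sum_congr rfl fun i hi => ?_
    rw [mul_pow, Real.sq_sqrt (hw i hi)]
  rw [h2, h2]
  exact mul_le_mul hX hY (sum_nonneg fun i hi => mul_nonneg (hw i hi) (sq_nonneg _))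
    ((sum_nonneg fun i hi => mul_nonneg (hw i hi) (sq_nonneg _)).trans hX)

/-- one modulus -/
theorem BV1_one (m R c : ℕ) (hm : 0 < m) (α β : ℕ → ℝ) (M₁ M₂ N₁ N₂ : ℕ) :
    |∑ a ∈ Ioc M₁ M₂, ∑ b ∈ Ioc N₁ N₂, α a * β b * kp R m c (a * b)| ≤
      1 / (Nat.totient m : ℝ) * ∑ r ∈ Ioc R (2 * R) with r ∣ m,
        (open Classical in ∑ χ : DirichletCharacter ℂ r with χ.IsPrimitive,
          ‖BV1_A α M₁ M₂ (m / r) r χ‖ * ‖BV1_A β N₁ N₂ (m / r) r χ‖) := by
  classical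
  set S := (univ : Finset (DirichletCharacter ℂ m)).filter
    (fun χ => R < χ.conductor ∧ χ.conductor ≤ 2 * R) with hS
  have e1 : ∑ a ∈ Ioc M₁ M₂, ∑ b ∈ Ioc N₁ N₂, α a * β b * kp R m c (a * b) =
      1 / (Nat.totient m : ℝ) * (∑ χ ∈ S, (starRingEnd ℂ) (χ c) *
        ((∑ a ∈ Ioc M₁ M₂, (α a : ℂ) * χ a) * ∑ b ∈ Ioc N₁ N₂, (β b : ℂ) * χ b)).re := by
    have e2 : ∀ a b : ℕ, α a * β b * kp R m c (a * b) = 1 / (Nat.totient m : ℝ) *
        (∑ χ ∈ S, (starRingEnd ℂ) (χ c) * (((α a : ℂ) * χ a) * ((β b : ℂ) * χ b))).re := by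
      intro a b
      have e3 : ∑ χ ∈ S, (starRingEnd ℂ) (χ c) * (((α a : ℂ) * χ a) * ((β b : ℂ) * χ b)) =
          ((α a * β b : ℝ) : ℂ) * ∑ χ ∈ S, (starRingEnd ℂ) (χ c) * χ ((a * b : ℕ) : ZMod m) := by
        rw [mul_sum]
        refine sum_congr rfl fun χ _ => ?_
        push_cast
        rw [map_mul]
        ring
      rw [e3, Complex.re_ofReal_mul, kp]
      rw [hS]
      ring_nf
    simp_rw [e2, ← mul_sum, ← Complex.re_sum]
    congr 2
    rw [sum_congr rfl fun a _ => sum_comm, sum_comm]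
    refine sum_congr rfl fun χ _ => ?_
    rw [sum_mul_sum, mul_sum]
    refine sum_congr rfl fun a _ => ?_
    rw [mul_sum]
  rw [e1, abs_mul, abs_of_nonneg (by positivity : 0 ≤ 1 / (Nat.totient m : ℝ))]
  refine mul_le_mul_of_nonneg_left ?_ (by positivity)
  refine (Complex.abs_re_le_norm _).trans ((norm_sum_le _ _).trans ?_)
  have h1 : ∀ χ ∈ S, ‖(starRingEnd ℂ) (χ c) *
      ((∑ a ∈ Ioc M₁ M₂, (α a : ℂ) * χ a) * ∑ b ∈ Ioc N₁ N₂, (β b : ℂ) * χ b)‖ ≤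
      ‖BV1_A α M₁ M₂ (m / χ.conductor) χ.conductor χ.primitiveCharacter‖ *
      ‖BV1_A β N₁ N₂ (m / χ.conductor) χ.conductor χ.primitiveCharacter‖ := by
    intro χ _
    rw [norm_mul, norm_mul, RCLike.norm_conj, BV1_prim α M₁ M₂ m hm, BV1_prim β N₁ N₂ m hm]
    exact mul_le_of_le_one_left (by positivity) (DirichletCharacter.norm_le_one χ _)
  refine (sum_le_sum h1).trans ?_
  have h2 := BV1_chars m R hm (fun s r χ => ‖BV1_A α M₁ M₂ s r χ‖ * ‖BV1_A β N₁ N₂ s r χ‖)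
    (fun _ _ _ => by positivity)
  convert h2 using 2

/-- **BV1** -/
theorem BV1 : BV1_stmt := by
  classical
  refine ⟨5 * Real.exp 30, by positivity, ?_⟩
  intro Q R c α β M₁ M₂ N₁ N₂ hQ hR hM hN
  have hR0 : (0 : ℝ) < R := by exact_mod_cast hR
  set W := √((((M₂ - M₁ : ℕ) : ℝ) + 4 * R ^ 2) * (((N₂ - N₁ : ℕ) : ℝ) + 4 * R ^ 2) *
        (∑ a ∈ Ioc M₁ M₂, α a ^ 2) * (∑ b ∈ Ioc N₁ N₂, β b ^ 2)) with hW
  set X : ℕ → ℕ → ℝ := fun s r => ∑ χ : DirichletCharacter ℂ r with χ.IsPrimitive,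
          ‖BV1_A α M₁ M₂ s r χ‖ * ‖BV1_A β N₁ N₂ s r χ‖ with hXd
  have h1 : ∀ m ∈ Icc 1 Q, |∑ a ∈ Ioc M₁ M₂, ∑ b ∈ Ioc N₁ N₂, α a * β b * kp R m (c m) (a * b)| ≤
      1 / (Nat.totient m : ℝ) * ∑ r ∈ Ioc R (2 * R) with r ∣ m, X (m / r) r := by
    intro m hm
    rw [mem_Icc] at hm
    have := BV1_one m R (c m) (by omega) α β M₁ M₂ N₁ N₂
    simp only [hXd]
    convert this using 4
  refine (sum_le_sum h1).trans ?_
  refine (BV1_swap Q R hR X (fun s r => sum_nonneg fun _ _ => by positivity)).trans ?_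
  have h2 : ∀ s : ℕ, ∑ r ∈ Ioc R (2 * R), (r : ℝ) / Nat.totient r * X s r ≤ 5 * W := by
    intro s
    set T : Finset (Σ r : ℕ, DirichletCharacter ℂ r) :=
      (Ioc R (2 * R)).sigma
        (fun r => (univ : Finset (DirichletCharacter ℂ r)).filter (fun χ => χ.IsPrimitive)) with hT
    have e1 : ∀ F : ∀ r : ℕ, DirichletCharacter ℂ r → ℝ,
        ∑ r ∈ Ioc R (2 * R), (r : ℝ) / Nat.totient r *
          ∑ χ : DirichletCharacter ℂ r with χ.IsPrimitive, F r χ =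
        ∑ i ∈ T, ((i.1 : ℝ) / Nat.totient i.1) * F i.1 i.2 := by
      intro F
      rw [hT, sum_sigma]
      refine sum_congr rfl fun r _ => ?_
      rw [mul_sum]
    have e2 := BV1_ls α M₁ M₂ s R hM
    have e3 := BV1_ls β N₁ N₂ s R hN
    rw [e1 (fun r χ => ‖BV1_A α M₁ M₂ s r χ‖ ^ 2)] at e2
    rw [e1 (fun r χ => ‖BV1_A β N₁ N₂ s r χ‖ ^ 2)] at e3
    have e4 := BV1_cs T (fun i => (i.1 : ℝ) / Nat.totient i.1)
      (fun i => ‖BV1_A α M₁ M₂ s i.1 i.2‖) (fun i => ‖BV1_A β N₁ N₂ s i.1 i.2‖)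
      (fun _ _ => by positivity) _ _ e2 e3
    simp only [hXd]
    rw [e1 (fun r χ => ‖BV1_A α M₁ M₂ s r χ‖ * ‖BV1_A β N₁ N₂ s r χ‖)]
    refine e4.trans (le_of_eq ?_)
    rw [hW, show (5 : ℝ) = √(5 * 5) by rw [Real.sqrt_mul_self (by norm_num)],
      ← Real.sqrt_mul (by positivity), Real.sqrt_mul_self (by norm_num)]
    congr 1
    ring
  have h3 := BV1_sum_inv Q hQ
  calc _ ≤ ∑ s ∈ Icc 1 Q, 1 / (Nat.totient s : ℝ) * (1 / (R : ℝ) * (5 * W)) := by
        refine sum_le_sum fun s _ => ?_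
        refine mul_le_mul_of_nonneg_left ?_ (by positivity)
        exact mul_le_mul_of_nonneg_left (h2 s) (by positivity)
    _ = (∑ s ∈ Icc 1 Q, 1 / (Nat.totient s : ℝ)) * (1 / (R : ℝ) * (5 * W)) := by rw [sum_mul]
    _ ≤ (Real.exp 30 * (1 + Real.log Q)) * (1 / (R : ℝ) * (5 * W)) := by
        refine mul_le_mul_of_nonneg_right h3 ?_
        have : 0 ≤ W := Real.sqrt_nonneg _
        positivity
    _ = _ := by ring

end GD
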